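import Pool.Agent.W345.VO.Stm

/-!
# VO-OMOM: products of the conformal vector with itself
-/

set_option autoImplicit false

namespace Pool.Agent.W554.VO

open Pool.Agent.W345.VO MvPolynomial

/-- the vector `h_(-1) e^(k alpha)` -/
noncomputable def u (k : ℤ) : VV := Finsupp.single k (X 0)

/-- the part of the conformal vector of charge one -/
noncomputable def b : VV := Finsupp.single 1 (X 1 + X 0 ^ 2)

theorem hOp_one (k : ℤ) (p : PP) :
    hOp 1 (Finsupp.single k p) = Finsupp.single k ((2 : ℂ) • pderiv 0 p) := by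
  have := hOp_pos 0 k p
  norm_num at this
  exact this

theorem hOp_two (k : ℤ) (p : PP) :
    hOp 2 (Finsupp.single k p) = Finsupp.single k ((4 : ℂ) • pderiv 1 p) := by
  have := hOp_pos 1 k p
  norm_num at this
  exact this

theorem hOp_big {n : ℤ} (hn : 1 ≤ n) (k : ℤ) (p : PP)
    (h : ∀ l : ℕ, (l : ℤ) + 1 = n → pderiv l p = 0) : hOp n (Finsupp.single k p) = 0 := by
  obtain ⟨l, hl⟩ : ∃ l : ℕ, (l : ℤ) + 1 = n := ⟨(n - 1).toNat, by omega⟩
  rw [← hl, hOp_pos, h l hl, smul_zero, Finsupp.single_zero]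

theorem hOp_neg_one (k : ℤ) (p : PP) :
    hOp (-1) (Finsupp.single k p) = Finsupp.single k (X 0 * p) := by
  have h := hOp_neg 0 k p
  have e : (-((0 : ℕ) : ℤ) - 1) = -1 := by norm_num
  rwa [e] at h

theorem pd0 : pderiv 0 (C (1 / 4) * X 0 ^ 2 + C (1 / 2) * X 1 : PP) = (1 / 2 : ℂ) • X 0 := by
  rw [map_add, pow_two, Derivation.leibniz, Derivation.leibniz, Derivation.leibniz]
  simp only [pderiv_C, pderiv_X_self, pderiv_X_of_ne (show (1 : ℕ) ≠ 0 by norm_num), smul_eq_mul,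
    MvPolynomial.smul_eq_C_mul]
  have : (C (1 / 4) : PP) + C (1 / 4) = C (1 / 2) := by rw [← C_add]; norm_num
  rw [← this]
  ring

theorem pd1 : pderiv 1 (C (1 / 4) * X 0 ^ 2 + C (1 / 2) * X 1 : PP) = (1 / 2 : ℂ) • 1 := by
  rw [map_add, pow_two, Derivation.leibniz, Derivation.leibniz, Derivation.leibniz]
  simp only [pderiv_C, pderiv_X_self, pderiv_X_of_ne (show (0 : ℕ) ≠ 1 by norm_num), smul_eq_mul,
    MvPolynomial.smul_eq_C_mul]
  ring

theorem pdl {l : ℕ} (hl : 2 ≤ l) : pderiv l (C (1 / 4) * X 0 ^ 2 + C (1 / 2) * X 1 : PP) = 0 := by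
  rw [map_add, pow_two, Derivation.leibniz, Derivation.leibniz, Derivation.leibniz]
  simp only [pderiv_C, pderiv_X_of_ne (show (0 : ℕ) ≠ l by omega),
    pderiv_X_of_ne (show (1 : ℕ) ≠ l by omega), smul_eq_mul]
  ring

theorem qd0 : pderiv 0 (X 1 + X 0 ^ 2 : PP) = (2 : ℂ) • X 0 := by
  rw [map_add, pow_two, Derivation.leibniz]
  simp only [pderiv_X_self, pderiv_X_of_ne (show (1 : ℕ) ≠ 0 by norm_num), smul_eq_mul,
    MvPolynomial.smul_eq_C_mul]
  have : (C 2 : PP) = 2 := map_ofNat _ 2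
  rw [this]
  ring

theorem qd1 : pderiv 1 (X 1 + X 0 ^ 2 : PP) = 1 := by
  rw [map_add, pow_two, Derivation.leibniz]
  simp only [pderiv_X_self, pderiv_X_of_ne (show (0 : ℕ) ≠ 1 by norm_num), smul_eq_mul]
  ring

theorem qdl {l : ℕ} (hl : 2 ≤ l) : pderiv l (X 1 + X 0 ^ 2 : PP) = 0 := by
  rw [map_add, pow_two, Derivation.leibniz]
  simp only [pderiv_X_of_ne (show (0 : ℕ) ≠ l by omega),
    pderiv_X_of_ne (show (1 : ℕ) ≠ l by omega), smul_eq_mul]
  ring

theorem H0 : hOp 0 om = (2 : ℂ) • b := by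
  unfold om b
  rw [map_add, hOp_zero, hOp_zero]
  simp

theorem H1 : hOp 1 om = u 0 + (4 : ℂ) • u 1 := by
  unfold om u
  rw [map_add, hOp_one, hOp_one, pd0, qd0, smul_smul, smul_smul, Finsupp.smul_single]
  norm_num

theorem H2 : hOp 2 om = (2 : ℂ) • ee 0 + (4 : ℂ) • ee 1 := by
  unfold om ee
  rw [map_add, hOp_two, hOp_two, pd1, qd1, smul_smul, Finsupp.smul_single, Finsupp.smul_single]
  norm_num

theorem H3 {n : ℤ} (hn : 3 ≤ n) : hOp n om = 0 := by
  unfold om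
  rw [map_add, hOp_big (by omega) _ _ fun l hl => pdl (by omega),
    hOp_big (by omega) _ _ fun l hl => qdl (by omega), add_zero]

theorem b1 : hOp 1 b = (4 : ℂ) • u 1 := by
  unfold b u
  rw [hOp_one, qd0, smul_smul, Finsupp.smul_single]
  norm_num

theorem b2 : hOp 2 b = (4 : ℂ) • ee 1 := by
  unfold b ee
  rw [hOp_two, qd1, Finsupp.smul_single]

theorem b3 {n : ℤ} (hn : 3 ≤ n) : hOp n b = 0 :=
  hOp_big (by omega) _ _ fun l hl => qdl (by omega)

theorem u0 (k : ℤ) : hOp 0 (u k) = (2 * (k : ℂ)) • u k := by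
  unfold u
  rw [hOp_zero, Finsupp.smul_single]

theorem u1 (k : ℤ) : hOp 1 (u k) = (2 : ℂ) • ee k := by
  unfold u ee
  rw [hOp_one, pderiv_X_self, Finsupp.smul_single]

theorem u2 {n : ℤ} (hn : 2 ≤ n) (k : ℤ) : hOp n (u k) = 0 :=
  hOp_big (by omega) _ _ fun l hl => pderiv_X_of_ne (by omega)

theorem em1 (k : ℤ) : hOp (-1) (ee k) = u k := by
  unfold ee u
  rw [hOp_neg_one, mul_one]

theorem e0 (k : ℤ) : hOp 0 (ee k) = (2 * (k : ℂ)) • ee k := by
  unfold ee
  rw [hOp_zero, Finsupp.smul_single]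

theorem e1 {n : ℤ} (hn : 1 ≤ n) (k : ℤ) : hOp n (ee k) = 0 :=
  hOp_big (by omega) _ _ fun l hl => by rw [← C_1, pderiv_C]

theorem tau_a : tau 1 (C (1 / 4) * X 0 ^ 2 + C (1 / 2) * X 1 : PP) =
    Polynomial.monomial 0 (C (1 / 4) * X 0 ^ 2 + C (1 / 2) * X 1) +
      Polynomial.monomial 1 (-X 0) := by
  unfold tau
  simp only [map_add, map_mul, map_pow, aeval_X, algHom_C, mul_one]
  have h1 : (algebraMap ℂ (Polynomial PP)) (1 / 4) = Polynomial.C (C (1 / 4)) := rfl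
  have h2 : (algebraMap ℂ (Polynomial PP)) (1 / 2) = Polynomial.C (C (1 / 2)) := rfl
  rw [h1, h2]
  simp only [← Polynomial.C_mul_X_pow_eq_monomial]
  have h3 : (C (1 / 4) : PP) * 4 = 1 := by
    have : (4 : PP) = C 4 := (map_ofNat C 4).symm
    rw [this, ← C_mul]; norm_num
  have h4 : (C (1 / 2) : PP) * 2 = 1 := by
    have : (2 : PP) = C 2 := (map_ofNat C 2).symm
    rw [this, ← C_mul]; norm_num
  have h5 : (C 2 : PP) = 2 := map_ofNat C 2
  have h6 : (Polynomial.C (C (1 / 4) : PP)) * 4 = 1 := by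
    have : (4 : Polynomial PP) = Polynomial.C 4 := (map_ofNat Polynomial.C 4).symm
    rw [this, ← Polynomial.C_mul, h3, Polynomial.C_1]
  have h7 : (Polynomial.C (C (1 / 2) : PP)) * 2 = 1 := by
    have : (2 : Polynomial PP) = Polynomial.C 2 := (map_ofNat Polynomial.C 2).symm
    rw [this, ← Polynomial.C_mul, h4, Polynomial.C_1]
  have h8 : Polynomial.C (2 : PP) = (2 : Polynomial PP) := map_ofNat Polynomial.C 2
  rw [h5, h8]
  simp only [map_add, map_mul, map_pow, map_neg, pow_zero, mul_one, zero_add, pow_one]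
  linear_combination (Polynomial.X ^ 2 - Polynomial.C (X 0) * Polynomial.X) * h6 -
    (Polynomial.X ^ 2) * h7

theorem tau_b : tau 1 (X 1 + X 0 ^ 2 : PP) =
    Polynomial.monomial 0 (X 1 + X 0 ^ 2) + Polynomial.monomial 1 (-4 * X 0) +
      Polynomial.monomial 2 2 := by
  unfold tau
  simp only [map_add, map_pow, aeval_X, mul_one]
  simp only [← Polynomial.C_mul_X_pow_eq_monomial]
  have h5 : (C 2 : PP) = 2 := map_ofNat C 2
  have h8 : Polynomial.C (2 : PP) = (2 : Polynomial PP) := map_ofNat Polynomial.C 2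
  have h9 : Polynomial.C (4 : PP) = (4 : Polynomial PP) := map_ofNat Polynomial.C 4
  rw [h5, h8]
  simp only [map_add, map_mul, map_pow, map_neg, pow_zero, mul_one, zero_add, pow_one, h9]
  ring

theorem sz_neg {j : ℤ} (hj : j < 0) : sz 1 j = 0 := by
  unfold sz
  rw [if_neg (by omega)]

theorem phiA (m : ℤ) : phi 1 m (tau 1 (C (1 / 4) * X 0 ^ 2 + C (1 / 2) * X 1 : PP)) =
    (C (1 / 4) * X 0 ^ 2 + C (1 / 2) * X 1) * sz 1 m + -X 0 * sz 1 (1 + m) := by
  rw [tau_a, map_add, phi_monomial, phi_monomial]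
  have h0 : ((0 : ℕ) : ℤ) + m = m := by norm_num
  have h1 : ((1 : ℕ) : ℤ) + m = 1 + m := by norm_num
  rw [h0, h1]

theorem phiB (m : ℤ) : phi 1 m (tau 1 (X 1 + X 0 ^ 2 : PP)) =
    (X 1 + X 0 ^ 2) * sz 1 m + -4 * X 0 * sz 1 (1 + m) + 2 * sz 1 (2 + m) := by
  rw [tau_b, map_add, map_add, phi_monomial, phi_monomial, phi_monomial]
  have h0 : ((0 : ℕ) : ℤ) + m = m := by norm_num
  have h1 : ((1 : ℕ) : ℤ) + m = 1 + m := by norm_num
  have h2 : ((2 : ℕ) : ℤ) + m = 2 + m := by norm_num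
  rw [h0, h1, h2]

theorem E0 : EE 1 0 om = -u 1 := by
  unfold om u
  rw [map_add, EE_single, EE_single, Int.cast_one, phiA, phiB]
  have ha : (-0 - 1 - 2 * 1 * 0 : ℤ) = -1 := by norm_num
  have hb : (-0 - 1 - 2 * 1 * 1 : ℤ) = -3 := by norm_num
  rw [ha, hb, sz_neg (show (-1 : ℤ) < 0 by norm_num), sz_neg (show (-3 : ℤ) < 0 by norm_num),
    sz_neg (show (1 + -3 : ℤ) < 0 by norm_num), sz_neg (show (2 + -3 : ℤ) < 0 by norm_num)]
  have h : sz 1 (1 + -1 : ℤ) = 1 := by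
    unfold sz
    norm_num [ss_zero]
  rw [h]
  simp

theorem E1 {n : ℤ} (hn : 1 ≤ n) : EE 1 n om = 0 := by
  unfold om
  rw [map_add, EE_single, EE_single, Int.cast_one, phiA, phiB,
    sz_neg (show -n - 1 - 2 * 1 * 0 < 0 by omega),
    sz_neg (show 1 + (-n - 1 - 2 * 1 * 0) < 0 by omega),
    sz_neg (show -n - 1 - 2 * 1 * 1 < 0 by omega),
    sz_neg (show 1 + (-n - 1 - 2 * 1 * 1) < 0 by omega),
    sz_neg (show 2 + (-n - 1 - 2 * 1 * 1) < 0 by omega)]
  simp

/-- the quadratic sum -/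
theorem qsum {m : ℤ} (hm : 2 ≤ m) :
    ∑ᶠ i : ℕ, (hOp (-1 - i) (hOp (m + i) om) + hOp (m - 1 - i) (hOp i om)) =
      hOp (-1) (hOp m om) + (hOp (m - 1) (hOp 0 om) + hOp (m - 2) (hOp 1 om) +
        hOp (m - 3) (hOp 2 om)) := by
  rw [finsum_eq_sum_of_support_subset (s := Finset.range 3)]
  · rw [Finset.sum_range_succ, Finset.sum_range_succ, Finset.sum_range_succ, Finset.sum_range_zero]
    have h1 : hOp (m + ((1 : ℕ) : ℤ)) om = 0 := H3 (by push_cast; omega)
    have h2 : hOp (m + ((2 : ℕ) : ℤ)) om = 0 := H3 (by push_cast; omega)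
    rw [h1, h2, map_zero, map_zero]
    have a0 : (-1 - ((0 : ℕ) : ℤ)) = -1 := by norm_num
    have a1 : m + ((0 : ℕ) : ℤ) = m := by norm_num
    have a2 : m - 1 - ((0 : ℕ) : ℤ) = m - 1 := by norm_num
    have a3 : m - 1 - ((1 : ℕ) : ℤ) = m - 2 := by push_cast; ring
    have a4 : m - 1 - ((2 : ℕ) : ℤ) = m - 3 := by push_cast; ring
    rw [a0, a1, a2, a3, a4]
    push_cast
    abel
  · intro i hi
    rw [Function.mem_support] at hi
    by_contra h3
    apply hi
    have h4 : 3 ≤ i := by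
      by_contra h5
      exact h3 (by simpa using h5)
    rw [H3 (show (3 : ℤ) ≤ m + i by omega), H3 (show (3 : ℤ) ≤ i by omega), map_zero, map_zero,
      add_zero]

/-- OMOM. -/
theorem omom : S_HH → S_HE → S_BAS → S_OM → S_OMOM := by
  intro _ _ _ hOM A hA
  refine ⟨?_, ?_, ?_⟩
  · rw [hOM A hA, qsum (le_refl 2)]
    norm_num only
    rw [H2, H0, H1, E0, map_add, map_smul, map_smul, em1, em1, map_smul, b1, map_add, map_smul, u0,
      u0]
    push_cast
    module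
  · rw [hOM A hA, qsum (by norm_num)]
    norm_num only
    rw [H3 (le_refl 3), map_zero, H2, H0, H1, E1 (le_refl 1), map_smul, b2, map_add, map_smul, u1,
      u1, map_add, map_smul, map_smul, e0, e0]
    push_cast
    module
  · intro n hn
    rw [hOM A hA, qsum (by omega), H3 (show 3 ≤ n by omega), map_zero, H2, H0, H1,
      E1 (show 1 ≤ n - 2 by omega), map_smul, b3 (show 3 ≤ n - 1 by omega), map_add, map_smul,
      u2 (show 2 ≤ n - 2 by omega), u2 (show 2 ≤ n - 2 by omega), map_add, map_smul, map_smul,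
      e1 (show 1 ≤ n - 3 by omega), e1 (show 1 ≤ n - 3 by omega), H3 (show 3 ≤ n - 1 by omega)]
    module

end Pool.Agent.W554.VO
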